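import Pool.Agent.helper47.QSD.LIF

/-!
# qsd:IRR: irreducibility passes to almost all indices
-/

namespace Pool.Agent.helper70.QSD

open Pool.Agent.helper53.AU
open scoped Classical Polynomial

theorem IRR_swap {R : Type} [CommRing R] (p : R[X][X]) (i k : ℕ) :
    ((Polynomial.Bivariate.swap p).coeff i).coeff k = (p.coeff k).coeff i := by
  induction p using Polynomial.induction_on' with
  | add p q hp hq => rw [map_add, Polynomial.coeff_add, Polynomial.coeff_add, hp, hq,
      Polynomial.coeff_add, Polynomial.coeff_add]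
  | monomial n f =>
    induction f using Polynomial.induction_on' with
    | add f g hf hg => rw [map_add, map_add, Polynomial.coeff_add, Polynomial.coeff_add, hf, hg,
        Polynomial.coeff_add, Polynomial.coeff_add]
    | monomial m r =>
      rw [Polynomial.Bivariate.swap_monomial_monomial, Polynomial.coeff_monomial,
        Polynomial.coeff_monomial]
      by_cases h1 : m = i
      · by_cases h2 : n = k
        · rw [if_pos h1, if_pos h2, Polynomial.coeff_monomial, Polynomial.coeff_monomial,
            if_pos h1, if_pos h2]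
        · rw [if_pos h1, if_neg h2, Polynomial.coeff_monomial, if_neg h2, Polynomial.coeff_zero]
      · by_cases h2 : n = k
        · rw [if_neg h1, if_pos h2, Polynomial.coeff_monomial, if_neg h1, Polynomial.coeff_zero]
        · rw [if_neg h1, if_neg h2, Polynomial.coeff_zero, Polynomial.coeff_zero]

/-- degrees in the inner variable of the factors -/
theorem IRR_deg {R : Type} [CommRing R] [IsDomain R] (A B : R[X][X]) (D : ℕ) (hA : A ≠ 0)
    (hB : B ≠ 0) (h : ∀ i, ((A * B).coeff i).natDegree ≤ D) : ∀ i, (A.coeff i).natDegree ≤ D := by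
  have h1 : (Polynomial.Bivariate.swap (A * B)).natDegree ≤ D := by
    rw [Polynomial.natDegree_le_iff_coeff_eq_zero]
    intro N hN
    apply Polynomial.ext
    intro k
    rw [IRR_swap, Polynomial.coeff_zero]
    exact Polynomial.coeff_eq_zero_of_natDegree_lt (lt_of_le_of_lt (h k) hN)
  have hA' : Polynomial.Bivariate.swap A ≠ 0 := by
    intro h2
    exact hA ((map_eq_zero_iff _ (Polynomial.Bivariate.swap (R := R)).injective).1 h2)
  have hB' : Polynomial.Bivariate.swap B ≠ 0 := by
    intro h2
    exact hB ((map_eq_zero_iff _ (Polynomial.Bivariate.swap (R := R)).injective).1 h2)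
  have h2 : (Polynomial.Bivariate.swap A).natDegree ≤ D := by
    rw [map_mul, Polynomial.natDegree_mul hA' hB'] at h1
    omega
  intro i
  rw [Polynomial.natDegree_le_iff_coeff_eq_zero]
  intro N hN
  rw [← IRR_swap, Polynomial.coeff_eq_zero_of_natDegree_lt (lt_of_le_of_lt h2 hN),
    Polynomial.coeff_zero]

/-- gluing -/
theorem IRR_glue (G : ℕ → kk[X][X]) (N D : ℕ) : ∃ G' : (ℕ → kk)[X][X], ∀ j,
    (G j).natDegree ≤ N → (∀ i, ((G j).coeff i).natDegree ≤ D) → mp2 (ej j) G' = G j := by
  refine ⟨∑ i ∈ Finset.range (N + 1), Polynomial.monomial i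
    (∑ k ∈ Finset.range (D + 1), Polynomial.monomial k (fun j => ((G j).coeff i).coeff k)), ?_⟩
  intro j hN hD
  apply Polynomial.ext
  intro i
  apply Polynomial.ext
  intro k
  rw [Polynomial.coeff_map, Polynomial.finset_sum_coeff]
  simp only [Polynomial.coeff_monomial]
  rw [Finset.sum_ite_eq']
  by_cases hi : i ∈ Finset.range (N + 1)
  · rw [if_pos hi]
    show (Polynomial.map (ej j) _).coeff k = _
    rw [Polynomial.coeff_map, Polynomial.finset_sum_coeff]
    simp only [Polynomial.coeff_monomial]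
    rw [Finset.sum_ite_eq']
    by_cases hk : k ∈ Finset.range (D + 1)
    · rw [if_pos hk]
      rfl
    · rw [if_neg hk, map_zero]
      rw [Finset.mem_range, not_lt] at hk
      exact (Polynomial.coeff_eq_zero_of_natDegree_lt (lt_of_le_of_lt (hD i) hk)).symm
  · rw [if_neg hi, map_zero]
    rw [Finset.mem_range, not_lt] at hi
    rw [Polynomial.coeff_eq_zero_of_natDegree_lt (lt_of_le_of_lt hN hi)]

theorem IRR : IRR_stmt := by
  intro P hP hirr
  by_contra hcon
  have hcon' : ∀ᶠ j in (UU : Filter ℕ), ¬ Irreducible (mp2 (ej j) P) :=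
    Ultrafilter.eventually_not.2 hcon
  have hm : ∀ j, (mp2 (ej j) P).Monic := fun j => hP.map _
  have hdeg : ∀ j, (mp2 (ej j) P).natDegree = P.natDegree := fun j => hP.natDegree_map _
  have hdegp : (mp2 pr P).natDegree = P.natDegree := hP.natDegree_map _
  have hpos : 0 < P.natDegree := by
    rcases Nat.eq_zero_or_pos P.natDegree with h0 | h0
    · exfalso
      have h1 : mp2 pr P = 1 := (hP.map _).natDegree_eq_zero.1 (by rw [hdegp, h0])
      rw [h1] at hirr
      exact hirr.not_isUnit isUnit_one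
    · exact h0
  -- the bound for the inner degrees
  obtain ⟨D, hD⟩ : ∃ D, ∀ i, (P.coeff i).natDegree ≤ D := by
    refine ⟨P.support.sup fun i => (P.coeff i).natDegree, fun i => ?_⟩
    by_cases hi : i ∈ P.support
    · exact Finset.le_sup (f := fun i => (P.coeff i).natDegree) hi
    · rw [Polynomial.notMem_support_iff.1 hi]
      simp
  have hDj : ∀ j i, ((mp2 (ej j) P).coeff i).natDegree ≤ D := by
    intro j i
    rw [Polynomial.coeff_map]
    exact (Polynomial.natDegree_map_le).trans (hD i)
  -- the factors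
  have hfac : ∀ j, ∃ A B : kk[X][X], ¬ Irreducible (mp2 (ej j) P) →
      A.Monic ∧ B.Monic ∧ A * B = mp2 (ej j) P ∧ 0 < B.natDegree ∧
        B.natDegree ≤ P.natDegree / 2 := by
    intro j
    by_cases h1 : Irreducible (mp2 (ej j) P)
    · exact ⟨0, 0, fun h => absurd h1 h⟩
    · have h2 := h1
      rw [(hm j).irreducible_iff_natDegree'] at h2
      push Not at h2
      have h3 : mp2 (ej j) P ≠ 1 := by
        intro h4
        have h5 := hdeg j
        rw [h4, Polynomial.natDegree_one] at h5
        omega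
      obtain ⟨f, g, hf, hg, hfg, hgd⟩ := h2 h3
      rw [Finset.mem_Ioc, hdeg j] at hgd
      exact ⟨f, g, fun _ => ⟨hf, hg, hfg, hgd.1, hgd.2⟩⟩
  choose A B hAB using hfac
  -- constant degree
  obtain ⟨b, hb⟩ : ∃ b ∈ ((Finset.range (P.natDegree + 1) : Finset ℕ) : Set ℕ),
      ∀ᶠ j in (UU : Filter ℕ), (B j).natDegree = b := by
    rw [← Ultrafilter.eventually_exists_mem_iff (Finset.finite_toSet _)]
    filter_upwards [hcon'] with j hj
    refine ⟨(B j).natDegree, ?_, rfl⟩
    have := (hAB j hj).2.2.2.2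
    rw [Finset.mem_coe, Finset.mem_range]
    omega
  obtain ⟨-, hb⟩ := hb
  obtain ⟨A', hA'⟩ := IRR_glue A P.natDegree D
  obtain ⟨B', hB'⟩ := IRR_glue B P.natDegree D
  have hgA : ∀ᶠ j in (UU : Filter ℕ), mp2 (ej j) A' = A j := by
    filter_upwards [hcon'] with j hj
    obtain ⟨h1, h2, h3, h4, h5⟩ := hAB j hj
    refine hA' j ?_ ?_
    · have h6 := h1.natDegree_mul h2
      rw [h3, hdeg j] at h6
      omega
    · refine IRR_deg (A j) (B j) D h1.ne_zero h2.ne_zero ?_
      rw [h3]
      exact hDj j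
  have hgB : ∀ᶠ j in (UU : Filter ℕ), mp2 (ej j) B' = B j := by
    filter_upwards [hcon'] with j hj
    obtain ⟨h1, h2, h3, h4, h5⟩ := hAB j hj
    refine hB' j ?_ ?_
    · omega
    · refine IRR_deg (B j) (A j) D h2.ne_zero h1.ne_zero ?_
      rw [mul_comm, h3]
      exact hDj j
  have hprod : mp2 pr A' * mp2 pr B' = mp2 pr P := by
    have h1 : mp2 pr (A' * B' - P) = 0 := by
      rw [LIF_mp0]
      filter_upwards [hcon', hgA, hgB] with j hj hjA hjB
      show Polynomial.map _ (A' * B' - P) = 0
      rw [Polynomial.map_sub, Polynomial.map_mul]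
      show mp2 (ej j) A' * mp2 (ej j) B' - mp2 (ej j) P = 0
      rw [hjA, hjB, (hAB j hj).2.2.1, sub_self]
    have h2 : mp2 pr (A' * B' - P) = mp2 pr A' * mp2 pr B' - mp2 pr P := by
      show Polynomial.map _ (A' * B' - P) = _
      rw [Polynomial.map_sub, Polynomial.map_mul]
    rw [h2] at h1
    exact sub_eq_zero.1 h1
  -- the degrees of the factors
  have hcoef : ∀ (G' : (ℕ → kk)[X][X]) (G : ℕ → kk[X][X]) (n : ℕ),
      (∀ᶠ j in (UU : Filter ℕ), mp2 (ej j) G' = G j) →
      (∀ᶠ j in (UU : Filter ℕ), (G j).Monic ∧ (G j).natDegree = n) → 0 < n →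
      ¬ IsUnit (mp2 pr G') := by
    intro G' G n h1 h2 hn hu
    have h3 : (mp2 pr G').natDegree = 0 := Polynomial.natDegree_eq_zero_of_isUnit hu
    have h4 : (mp2 pr G').coeff n = 0 :=
      Polynomial.coeff_eq_zero_of_natDegree_lt (by rw [h3]; exact hn)
    rw [Polynomial.coeff_map] at h4
    have h5 : (G'.coeff n).map pr = 0 := h4
    rw [LIF_map0] at h5
    have h6 : ∀ᶠ j in (UU : Filter ℕ), False := by
      filter_upwards [h1, h2, h5] with j a1 a2 a3
      have a4 : (G j).coeff n = 1 := by
        rw [← a2.2]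
        exact a2.1.coeff_natDegree
      rw [← a1, Polynomial.coeff_map] at a4
      have a5 : (G'.coeff n).map (ej j) = 1 := a4
      rw [a3] at a5
      exact zero_ne_one a5
    exact (Filter.eventually_false_iff_eq_bot.1 h6) |> (Filter.NeBot.ne inferInstance)
  have hbp : ∀ᶠ j in (UU : Filter ℕ), 0 < b ∧ b ≤ P.natDegree / 2 := by
    filter_upwards [hcon', hb] with j h1 h2
    rw [← h2]
    exact ⟨(hAB j h1).2.2.2.1, (hAB j h1).2.2.2.2⟩
  obtain ⟨j0, hj0⟩ := hbp.exists
  have nB : ¬ IsUnit (mp2 pr B') := by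
    refine hcoef B' B b hgB ?_ hj0.1
    filter_upwards [hcon', hb] with j h1 h2
    exact ⟨(hAB j h1).2.1, h2⟩
  have nA : ¬ IsUnit (mp2 pr A') := by
    refine hcoef A' A (P.natDegree - b) hgA ?_ (by omega)
    filter_upwards [hcon', hb] with j h1 h2
    obtain ⟨a1, a2, a3, a4, a5⟩ := hAB j h1
    refine ⟨a1, ?_⟩
    have h6 := a1.natDegree_mul a2
    rw [a3, hdeg j, h2] at h6
    omega
  rcases hirr.isUnit_or_isUnit hprod.symm with h | h
  · exact nA h
  · exact nB h

end Pool.Agent.helper70.QSD
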