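import Pool.Agent.helper70.QSD.SpecC

/-!
# qsd:LFT: lifting polynomials to sequences
-/

namespace Pool.Agent.helper70.QSD

open Pool.Agent.helper53.AU
open scoped Classical Polynomial

theorem LFT_surj : Function.Surjective (pr : (ℕ → kk) →+* KS) := by
  intro x
  induction x using Filter.Germ.inductionOn with
  | _ f => exact ⟨f, rfl⟩

theorem LFT : LFT_stmt := by
  have h1 : Function.Surjective (Polynomial.mapRingHom (pr : (ℕ → kk) →+* KS)) :=
    Polynomial.map_surjective _ LFT_surj
  refine ⟨?_, ?_, ?_⟩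
  · intro h
    exact h1 h
  · intro G
    exact Polynomial.map_surjective _ h1 G
  · intro P hP
    have h2 : P ∈ Polynomial.lifts (Polynomial.mapRingHom (pr : (ℕ → kk) →+* KS)) := by
      rw [Polynomial.mem_lifts]
      exact Polynomial.map_surjective _ h1 P
    obtain ⟨Q, hQ1, hQ2, hQ3⟩ := Polynomial.lifts_and_natDegree_eq_and_monic h2 hP
    exact ⟨Q, hQ3, hQ2, hQ1⟩

end Pool.Agent.helper70.QSD
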