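import Pool.Agent.helper70.QSD.SpecC

/-!
# qsd:LIF: divisibility by a monic polynomial passes to almost all indices
-/

namespace Pool.Agent.helper70.QSD

open Pool.Agent.helper53.AU
open scoped Classical Polynomial

theorem LIF_pr0 (x : ℕ → kk) : pr x = 0 ↔ ∀ᶠ j in (UU : Filter ℕ), ej j x = 0 := by
  have h1 : (pr x : KS) = 0 ↔ ((x : (ℕ → kk)) : KS) = ((0 : ℕ → kk) : KS) := Iff.rfl
  rw [h1, Filter.Germ.coe_eq]
  exact Iff.rfl

theorem LIF_map0 (h : (ℕ → kk)[X]) :
    h.map pr = 0 ↔ ∀ᶠ j in (UU : Filter ℕ), h.map (ej j) = 0 := by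
  have e1 : h.map pr = 0 ↔ ∀ i ∈ h.support, pr (h.coeff i) = 0 := by
    constructor
    · intro h1 i _
      rw [← Polynomial.coeff_map, h1, Polynomial.coeff_zero]
    · intro h1
      ext i
      rw [Polynomial.coeff_map, Polynomial.coeff_zero]
      by_cases hi : i ∈ h.support
      · exact h1 i hi
      · rw [Polynomial.notMem_support_iff.1 hi, map_zero]
  have e2 : ∀ j : ℕ, h.map (ej j) = 0 ↔ ∀ i ∈ h.support, ej j (h.coeff i) = 0 := by
    intro j
    constructor
    · intro h1 i _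
      rw [← Polynomial.coeff_map, h1, Polynomial.coeff_zero]
    · intro h1
      ext i
      rw [Polynomial.coeff_map, Polynomial.coeff_zero]
      by_cases hi : i ∈ h.support
      · exact h1 i hi
      · rw [Polynomial.notMem_support_iff.1 hi, map_zero]
  simp only [e1, e2, LIF_pr0, Filter.eventually_all_finset]

theorem LIF_mp0 (G : (ℕ → kk)[X][X]) :
    mp2 pr G = 0 ↔ ∀ᶠ j in (UU : Filter ℕ), mp2 (ej j) G = 0 := by
  have e1 : mp2 pr G = 0 ↔ ∀ i ∈ G.support, (G.coeff i).map pr = 0 := by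
    constructor
    · intro h1 i _
      have h2 : (mp2 pr G).coeff i = 0 := by rw [h1, Polynomial.coeff_zero]
      rw [Polynomial.coeff_map] at h2
      exact h2
    · intro h1
      apply Polynomial.ext
      intro i
      rw [Polynomial.coeff_map, Polynomial.coeff_zero]
      by_cases hi : i ∈ G.support
      · exact h1 i hi
      · rw [Polynomial.notMem_support_iff.1 hi, map_zero]
  have e2 : ∀ j : ℕ, mp2 (ej j) G = 0 ↔ ∀ i ∈ G.support, (G.coeff i).map (ej j) = 0 := by
    intro j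
    constructor
    · intro h1 i _
      have h2 : (mp2 (ej j) G).coeff i = 0 := by rw [h1, Polynomial.coeff_zero]
      rw [Polynomial.coeff_map] at h2
      exact h2
    · intro h1
      apply Polynomial.ext
      intro i
      rw [Polynomial.coeff_map, Polynomial.coeff_zero]
      by_cases hi : i ∈ G.support
      · exact h1 i hi
      · rw [Polynomial.notMem_support_iff.1 hi, map_zero]
  simp only [e1, e2, LIF_map0, Filter.eventually_all_finset]

theorem LIF_dvd (P : (ℕ → kk)[X][X]) (hP : P.Monic) (G : (ℕ → kk)[X][X]) :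
    mp2 pr P ∣ mp2 pr G ↔ ∀ᶠ j in (UU : Filter ℕ), mp2 (ej j) P ∣ mp2 (ej j) G := by
  have e1 : mp2 pr P ∣ mp2 pr G ↔ mp2 pr (G %ₘ P) = 0 := by
    have h1 : mp2 pr (G %ₘ P) = mp2 pr G %ₘ mp2 pr P :=
      Polynomial.map_modByMonic (Polynomial.mapRingHom pr) hP
    rw [h1, Polynomial.modByMonic_eq_zero_iff_dvd (hP.map _)]
  have e2 : ∀ j : ℕ, mp2 (ej j) P ∣ mp2 (ej j) G ↔ mp2 (ej j) (G %ₘ P) = 0 := by
    intro j
    have h1 : mp2 (ej j) (G %ₘ P) = mp2 (ej j) G %ₘ mp2 (ej j) P :=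
      Polynomial.map_modByMonic (Polynomial.mapRingHom (ej j)) hP
    rw [h1, Polynomial.modByMonic_eq_zero_iff_dvd (hP.map _)]
  rw [e1, LIF_mp0]
  simp only [e2]

theorem LIF : LIF_stmt := by
  refine ⟨?_, ?_⟩
  · intro P hP G
    refine ⟨(LIF_dvd P hP G).1, ?_⟩
    intro h1
    rw [LIF_dvd P hP G] at h1
    exact Ultrafilter.eventually_not.2 h1
  · intro h h1
    rw [Ne, LIF_map0] at h1
    exact Ultrafilter.eventually_not.2 h1

end Pool.Agent.helper70.QSD
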