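import Pool.Agent.helper70.QSD.SpecC

/-!
# qsd:SAT: countable saturation
-/

namespace Pool.Agent.helper70.QSD

open Pool.Agent.helper53.AU
open scoped Classical

theorem SAT : SAT_stmt := by
  intro C hmono Λ hΛ hsol
  -- an exhaustion
  obtain ⟨En, hEn1, hEn2, hEn3⟩ : ∃ En : ℕ → Finset KS, (∀ I, (En I : Set KS) ⊆ Λ) ∧
      (∀ I J, I ≤ J → En I ⊆ En J) ∧ ∀ E : Finset KS, (E : Set KS) ⊆ Λ → ∃ I, E ⊆ En I := by
    rcases Set.eq_empty_or_nonempty Λ with h | h
    · refine ⟨fun _ => ∅, ?_, ?_, ?_⟩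
      · intro I
        simp
      · intro I J _
        exact Finset.Subset.refl _
      · intro E hE
        refine ⟨0, ?_⟩
        intro x hx
        have := hE hx
        rw [h] at this
        exact absurd this (Set.notMem_empty x)
    · obtain ⟨f, hf⟩ := hΛ.exists_eq_range h
      refine ⟨fun I => (Finset.range I).image f, ?_, ?_, ?_⟩
      · intro I x hx
        rw [Finset.mem_coe, Finset.mem_image] at hx
        obtain ⟨i, -, rfl⟩ := hx
        rw [hf]
        exact ⟨i, rfl⟩
      · intro I J hIJ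
        exact Finset.image_subset_image (Finset.range_mono hIJ)
      · intro E hE
        have h1 : ∀ x : KS, ∃ i, x ∈ E → f i = x := by
          intro x
          by_cases hx : x ∈ E
          · have h2 : x ∈ Set.range f := hf ▸ hE hx
            obtain ⟨i, hi⟩ := h2
            exact ⟨i, fun _ => hi⟩
          · exact ⟨0, fun h => absurd h hx⟩
        choose g hg using h1
        refine ⟨(E.sup g) + 1, ?_⟩
        intro x hx
        rw [Finset.mem_image]
        refine ⟨g x, ?_, hg x hx⟩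
        rw [Finset.mem_range]
        exact Nat.lt_succ_of_le (Finset.le_sup (f := g) hx)
  -- the largest solvable index
  have hχ : ∀ j : ℕ, ∃ χ : KS → kk, ∀ I, I ≤ j → (∃ χ' : KS → kk, C (En I) j χ') →
      C (En I) j χ := by
    intro j
    by_cases hex : ∃ I, I ≤ j ∧ ∃ χ' : KS → kk, C (En I) j χ'
    · let I0 : ℕ := Nat.findGreatest (fun I => ∃ χ' : KS → kk, C (En I) j χ') j
      obtain ⟨I1, hI1, hI1'⟩ := hex
      obtain ⟨χ, hχ⟩ : ∃ χ' : KS → kk, C (En I0) j χ' :=
        Nat.findGreatest_spec (P := fun I => ∃ χ' : KS → kk, C (En I) j χ') hI1 hI1'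
      refine ⟨χ, ?_⟩
      intro I hI hI'
      have h1 : I ≤ I0 := Nat.le_findGreatest hI hI'
      exact hmono (En I) (En I0) j χ (hEn2 I I0 h1) hχ
    · refine ⟨fun _ => 0, ?_⟩
      intro I hI hI'
      exact absurd ⟨I, hI, hI'⟩ hex
  choose χ hχ using hχ
  refine ⟨χ, ?_⟩
  intro E hE
  obtain ⟨I, hI⟩ := hEn3 E hE
  have h1 := hsol (En I) (hEn1 I)
  have h2 : ∀ᶠ j in (UU : Filter ℕ), I ≤ j := by
    have h3 : ∀ᶠ j in (Filter.cofinite : Filter ℕ), I ≤ j := by
      rw [Nat.cofinite_eq_atTop]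
      exact Filter.eventually_ge_atTop I
    exact Filter.Eventually.filter_mono (Filter.hyperfilter_le_cofinite) h3
  filter_upwards [h1, h2] with j hj1 hj2
  exact hmono E (En I) j (χ j) hI (hχ j I hj2 hj1)

end Pool.Agent.helper70.QSD
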